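import Pool.Agent.H27.L1.H34.GA.Targets1
import Pool.Agent.H27.L1.H18.GZ.Targets3

/-!
# Row UBD of the board ga: trivial bound for the local transforms (MP_52e316_nt)
-/

set_option autoImplicit false

namespace Pool.Agent.H27.L1.H20.GA

open Pool.Agent.H27.L1.H34.GM Pool.Agent.H27.L1.H34.GU Pool.Agent.H27.L1.H34.GA Set MeasureTheory
open Pool.Agent.H27.L1.H34.GZ hiding eu

theorem pf_UBD (hMSR : Pool.Agent.H27.L1.H34.GM.T_MSR) (hJSH : Pool.Agent.H27.L1.H34.GZ.T_JSH) : T_UBD := by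
  intro m m1 K hK
  obtain ⟨N, C, hC, hJ⟩ := hJSH m m1 K hK
  refine ⟨N, C, hC, fun c Ψ M M' hc hM hM' hcont hdec r hr => ?_⟩
  obtain ⟨-, -, haN, -, -, hSh, -, hΦ⟩ := hMSR.1 m
  set f : V m → ℂ := fun z => Ψ ((r⁻¹ * (aN (mt z))⁻¹) • mt z) * c (mt z) with hf
  have hm1 : Measurable (fun z : V m => Ψ ((r⁻¹ * (aN (mt z))⁻¹) • mt z)) := by
    have h1 : Measurable (fun z : V m => ((fun i j => (r⁻¹ * (aN (mt z))⁻¹) * z i j) : V m)) := by
      refine measurable_pi_lambda _ fun i => measurable_pi_lambda _ fun j => ?_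
      exact (haN.inv.const_mul _).mul ((measurable_pi_apply j).comp (measurable_pi_apply i))
    exact (hΦ Ψ hcont).comp h1
  have hmeas : AEStronglyMeasurable f ((hm m).restrict (Shell m)) :=
    hm1.aestronglyMeasurable.mul hc.meas.restrict
  have hbd : ∀ z ∈ Shell m, ‖f z‖ ≤
      M * M' * (1 + sz ((r⁻¹ * (aN (mt z))⁻¹) • mt z)) ^ (-(N : ℝ)) := by
    intro z hz
    have h1 : (mt z : Mat m).det ≠ 0 := by
      intro h2
      have h3 : aN (mt z) = 0 := by
        unfold aN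
        rw [h2, abs_zero, Real.zero_rpow]
        have : (0 : ℝ) < m := by exact_mod_cast m1
        positivity
      have h4 := hz.1
      rw [h3] at h4
      linarith
    have h2 := hdec ((r⁻¹ * (aN (mt z))⁻¹) • mt z)
    have h3 := hc.bd (mt z) h1
    rw [hf]
    simp only [norm_mul]
    calc ‖Ψ ((r⁻¹ * (aN (mt z))⁻¹) • mt z)‖ * ‖c (mt z)‖ ≤
        (M' * (1 + sz ((r⁻¹ * (aN (mt z))⁻¹) • mt z)) ^ (-(N : ℝ))) * M :=
          mul_le_mul h2 h3 (norm_nonneg _) ((norm_nonneg _).trans h2)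
      _ = _ := by ring
  have hlint : ∫⁻ z in Shell m, ENNReal.ofReal ‖f z‖ ∂(hm m) ≤
      ENNReal.ofReal (C * M * M' * r ^ K) := by
    calc ∫⁻ z in Shell m, ENNReal.ofReal ‖f z‖ ∂(hm m) ≤
        ∫⁻ z in Shell m, ENNReal.ofReal (M * M') * ENNReal.ofReal
          ((1 + sz ((r⁻¹ * (aN (mt z))⁻¹) • mt z)) ^ (-(N : ℝ))) ∂(hm m) := by
          refine setLIntegral_mono' hSh fun z hz => ?_
          rw [← ENNReal.ofReal_mul (mul_nonneg hM hM')]
          exact ENNReal.ofReal_le_ofReal (hbd z hz)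
      _ = ENNReal.ofReal (M * M') * ∫⁻ z in Shell m, ENNReal.ofReal
          ((1 + sz ((r⁻¹ * (aN (mt z))⁻¹) • mt z)) ^ (-(N : ℝ))) ∂(hm m) :=
          lintegral_const_mul' _ _ ENNReal.ofReal_ne_top
      _ ≤ ENNReal.ofReal (M * M') * ENNReal.ofReal (C * r ^ K) :=
          mul_le_mul_right (hJ r hr) _
      _ = ENNReal.ofReal (C * M * M' * r ^ K) := by
          rw [← ENNReal.ofReal_mul (mul_nonneg hM hM')]
          congr 1
          ring
  have hint : IntegrableOn f (Shell m) (hm m) := by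
    refine ⟨hmeas, ?_⟩
    rw [hasFiniteIntegral_iff_norm]
    exact lt_of_le_of_lt hlint ENNReal.ofReal_lt_top
  refine ⟨hint, ?_⟩
  have h0 : 0 ≤ C * M * M' * r ^ K := by positivity
  have h1 : ‖uu Ψ c r‖ ≤ ∫ z in Shell m, ‖f z‖ ∂(hm m) := norm_integral_le_integral_norm _
  have h2 : ∫ z in Shell m, ‖f z‖ ∂(hm m) =
      (∫⁻ z in Shell m, ENNReal.ofReal ‖f z‖ ∂(hm m)).toReal :=
    integral_eq_lintegral_of_nonneg_ae (Filter.Eventually.of_forall fun z => norm_nonneg _)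
      hmeas.norm
  refine h1.trans ?_
  rw [h2]
  exact ENNReal.toReal_le_of_le_ofReal h0 hlint

end Pool.Agent.H27.L1.H20.GA
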